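import Pool.Agent.Q261.AS.Image

/-!
# The values of the dimension of the asymptotic sets of the Gauss map

`Q261.CFD.gauss x = Int.fract x⁻¹` is the Gauss map and `Q261.Asy.AS x` is the asymptotic set of `x`.
-/

set_option autoImplicit false

namespace Pool.Agent.Results.MP_bb898f_an.ImageIsInterval

open Set Q261.Asy
open scoped ENNReal

/-- **Main result**: the set of all values of the Hausdorff dimension of the asymptotic sets
`AS x`, `x ∈ [0, 1)`, of the Gauss map is the closed interval `[0, 1 / 2]`. -/
theorem result : (fun x : ℝ => dimH (AS x)) '' Ico (0 : ℝ) 1 = Icc (0 : ℝ≥0∞) (1 / 2) :=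
  image_dimH

end Pool.Agent.Results.MP_bb898f_an.ImageIsInterval
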